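import Pool.Agent.Helper24.AL.St
import Pool.Agent.Helper56.SW.Final

/-! # MP_e188f1_nt, almost all pairs of units: module LEV -/

set_option autoImplicit false

namespace Pool.Agent.Helper90.AL

open Finset Matrix
open Pool.Agent.Helper56.SW (τ Γ I bx E Rel N Nq fn_fin fn_div)
open Pool.Agent.Helper28.SP (SZ SG red cnt W Sym Pos sP wP lam opX StLAM StSURJ StSYM StNPW StWPN
  StFOLD StLEVEL)
open Pool.Agent.Helper24.AL

theorem lev_terms (A B e c K : ℝ) (hA : 1 ≤ A) (hAB : A ≤ B) (he : 1 ≤ e) (hec : e ≤ c)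
    (hK : 1 ≤ K) (hBK : B ≤ K * c) :
    e ^ 2 / ((min (2 * A) e) ^ 3 * min (2 * B) e) + 1 / e ≤
    2 * (1 / e + K * c ^ 2 / (A ^ 3 * B)) := by
  have hB : 1 ≤ B := hA.trans hAB
  have hc : 1 ≤ c := he.trans hec
  have hT1 : 0 ≤ K * c ^ 2 / (A ^ 3 * B) := by positivity
  have he0 : 0 < 1 / e := by positivity
  rcases le_or_gt e (2 * A) with h | h
  · rw [min_eq_right h, min_eq_right (h.trans (by linarith))]
    have t1 : e ^ 2 / (e ^ 3 * e) ≤ 1 / e := by
      rw [div_le_div_iff₀ (by positivity) (by positivity)]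
      have : e ^ 3 ≤ e ^ 4 := pow_le_pow_right₀ he (by omega)
      nlinarith
    linarith
  · rw [min_eq_left h.le]
    rcases le_or_gt e (2 * B) with h' | h'
    · rw [min_eq_right h']
      have t1 : e ^ 2 / ((2 * A) ^ 3 * e) ≤ K * c ^ 2 / (A ^ 3 * B) := by
        calc e ^ 2 / ((2 * A) ^ 3 * e) = e / (8 * A ^ 3) := by
              field_simp
              ring
          _ ≤ c / A ^ 3 := by
              rw [div_le_div_iff₀ (by positivity) (by positivity)]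
              have : 0 ≤ A ^ 3 := by positivity
              nlinarith
          _ ≤ K * c ^ 2 / (A ^ 3 * B) := by
            rw [div_le_div_iff₀ (by positivity) (by positivity)]
            calc c * (A ^ 3 * B) = A ^ 3 * c * B := by ring
              _ ≤ A ^ 3 * c * (K * c) := by gcongr
              _ = K * c ^ 2 * A ^ 3 := by ring
      linarith
    · rw [min_eq_left h'.le]
      have t1 : e ^ 2 / ((2 * A) ^ 3 * (2 * B)) ≤ K * c ^ 2 / (A ^ 3 * B) := by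
        have h1 : A ^ 3 * B ≤ (2 * A) ^ 3 * (2 * B) := by
          have : 0 ≤ A ^ 3 * B := by positivity
          nlinarith
        have h2 : e ^ 2 ≤ K * c ^ 2 := by
          have h3 : e ^ 2 ≤ c ^ 2 := by gcongr
          have h4 : 0 ≤ c ^ 2 := by positivity
          nlinarith
        exact div_le_div₀ (by positivity) h2 (by positivity) h1
      linarith

theorem hLEV (hWPN : StWPN) (hFOLD : StFOLD) : StLEV := by
  intro K C0 ε hK hC0 hε
  obtain ⟨C1, hC1, hfin⟩ := fn_fin 3 1 ε le_rfl le_rfl hε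
  refine ⟨2 * 9 ^ 3 * (C0 + 2 * C1), by positivity, ?_⟩
  intro c l A B hc hl hA hAB hBK hcB hGd e hec'
  have hec : e ∣ c := Nat.dvd_of_mem_divisors hec'
  have he : 1 ≤ e := Nat.pos_of_dvd_of_pos hec hc
  have hle : e ≤ c := Nat.le_of_dvd hc hec
  have hdz : (e : ℤ) ∣ (c : ℤ) := by exact_mod_cast hec
  have hl' : IsCoprime l (e : ℤ) := hl.of_isCoprime_of_dvd_right hdz
  have hA0 : (1 : ℝ) ≤ A := by exact_mod_cast hA
  have hB0 : (1 : ℝ) ≤ B := hA0.trans (by exact_mod_cast hAB)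
  have he0 : (1 : ℝ) ≤ e := by exact_mod_cast he
  have hc0 : (1 : ℝ) ≤ c := by exact_mod_cast hc
  have hce : (e : ℝ) ^ ε ≤ (c : ℝ) ^ ε := by
    apply Real.rpow_le_rpow (by positivity) (by exact_mod_cast hle) hε.le
  -- the bound at level `e`
  have hN : (N e 1 l 3 (min (2 * A) e) (min (2 * B) e) : ℝ) ≤ (C0 + 2 * C1) * (c : ℝ) ^ ε *
      (((min (2 * B) e : ℕ) : ℝ) ^ 2 +
        (((min (2 * A) e : ℕ) : ℝ) * ((min (2 * B) e : ℕ) : ℝ)) ^ 3 / (e : ℝ) ^ 3) := by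
    rcases le_or_gt c (e ^ 2) with h | h
    · have h1 := hGd e hec' h (min (2 * A) e) (min (2 * B) e) (by omega) (by omega) (by omega)
      refine h1.trans ?_
      refine mul_le_mul_of_nonneg_right ?_ (by positivity)
      have h2 : C0 ≤ C0 + 2 * C1 := by linarith
      exact mul_le_mul h2 hce (by positivity) (by positivity)
    · have heB : e < B := by
        by_contra hcon
        push Not at hcon
        have : B ^ 2 ≤ e ^ 2 := Nat.pow_le_pow_left hcon 2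
        omega
      have hB' : min (2 * B) e = e := by omega
      have h1 := hfin e 1 l (min (2 * A) e) (min (2 * B) e) he isCoprime_one_left hl'
        (by omega) (by omega) (by rw [one_mul]; exact_mod_cast min_le_right _ _)
      rw [hB'] at h1 ⊢
      have hx : (1 : ℝ) ≤ ((min (2 * A) e : ℕ) : ℝ) := by
        have : 1 ≤ min (2 * A) e := by omega
        exact_mod_cast this
      generalize ((min (2 * A) e : ℕ) : ℝ) = x at h1 hx ⊢
      have e1 : (x * (e : ℝ)) ^ 3 / (e : ℝ) ^ 3 = x ^ 3 := by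
        rw [mul_pow]
        field_simp
      rw [e1]
      have e2 : (e : ℝ) ^ (3 - 1) + x ^ (3 - 1) * (e : ℝ) ^ (3 - 3) +
          x ^ 3 * (e : ℝ) ^ (3 - 2) / e ≤ 2 * ((e : ℝ) ^ 2 + x ^ 3) := by
        have e3 : x ^ 3 * (e : ℝ) ^ (3 - 2) / e = x ^ 3 := by
          rw [show 3 - 2 = 1 by norm_num, pow_one]
          field_simp
        rw [e3]
        have e4 : x ^ 2 ≤ x ^ 3 := pow_le_pow_right₀ hx (by norm_num)
        have e5 : 0 ≤ (e : ℝ) ^ 2 := by positivity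
        norm_num
        linarith
      calc (N e 1 l 3 (min (2 * A) e) e : ℝ) ≤ C1 * (e : ℝ) ^ ε *
            ((e : ℝ) ^ (3 - 1) + x ^ (3 - 1) * (e : ℝ) ^ (3 - 3) +
          x ^ 3 * (e : ℝ) ^ (3 - 2) / e) := h1
        _ ≤ C1 * (c : ℝ) ^ ε * (2 * ((e : ℝ) ^ 2 + x ^ 3)) := by
            gcongr
        _ ≤ (C0 + 2 * C1) * (c : ℝ) ^ ε * ((e : ℝ) ^ 2 + x ^ 3) := by
            have : 0 ≤ C0 * (c : ℝ) ^ ε * ((e : ℝ) ^ 2 + x ^ 3) := by positivity
            nlinarith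
  have hw := hWPN e 1 l 3 A B he (by omega)
  have hf := hFOLD e 1 l 3 (2 * A) (2 * B) he (by omega) (by omega)
  have ht := lev_terms (A : ℝ) B e c K hA0 (by exact_mod_cast hAB) he0
    (by exact_mod_cast hle) hK hBK
  push_cast at hf hN
  set x : ℝ := min (2 * (A : ℝ)) e with hx
  set y : ℝ := min (2 * (B : ℝ)) e with hy
  set N1 : ℝ := (N e 1 l 3 (2 * A) (2 * B) : ℝ) with hN1
  set N2 : ℝ := (N e 1 l 3 (min (2 * A) e) (min (2 * B) e) : ℝ) with hN2
  set W1 : ℝ := (W (sP A B) (wP 1 l) e 3 1 : ℝ) with hW1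
  set T : ℝ := 1 / (e : ℝ) + K * (c : ℝ) ^ 2 / ((A : ℝ) ^ 3 * B) with hT
  have hx0 : 0 < x := by rw [hx]; exact lt_min (by linarith) (by linarith)
  have hy0 : 0 < y := by rw [hy]; exact lt_min (by linarith) (by linarith)
  have hT0 : 0 ≤ T := by rw [hT]; positivity
  set P : ℝ := (2 * (A : ℝ) + 1) * (2 * B + 1) with hP
  have hP0 : 0 < P := by rw [hP]; positivity
  have h36 : 36 * ((A : ℝ) * B) ≤ 9 * P := by
    rw [hP]
    nlinarith
  clear_value x y N1 N2 W1 T P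
  set S : ℝ := 1 / (x ^ 3 * y) + 1 / (e : ℝ) ^ 3 with hS
  have hS0 : 0 ≤ S := by rw [hS]; positivity
  have hSe : S * (e : ℝ) ^ 2 ≤ 2 * T := by
    refine le_trans (le_of_eq ?_) ht
    rw [hS]
    field_simp
  have hn' : N2 ≤ (C0 + 2 * C1) * (c : ℝ) ^ ε * (x ^ 3 * y ^ 3 * S) := by
    refine hN.trans (le_of_eq ?_)
    congr 1
    rw [hS]
    field_simp
  calc W1 * (e : ℝ) ^ 2 ≤ (P ^ 3 * N1) * (e : ℝ) ^ 2 := by gcongr
    _ ≤ (P ^ 3 * ((3 * (2 * (A : ℝ)) / x) ^ 3 * (3 * (2 * (B : ℝ)) / y) ^ 3 * N2)) *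
          (e : ℝ) ^ 2 := by gcongr
    _ ≤ (P ^ 3 * ((3 * (2 * (A : ℝ)) / x) ^ 3 * (3 * (2 * (B : ℝ)) / y) ^ 3 *
          ((C0 + 2 * C1) * (c : ℝ) ^ ε * (x ^ 3 * y ^ 3 * S)))) * (e : ℝ) ^ 2 := by gcongr
    _ = P ^ 3 * (36 * ((A : ℝ) * B)) ^ 3 * (C0 + 2 * C1) * (c : ℝ) ^ ε * (S * (e : ℝ) ^ 2) := by
      rw [div_pow, div_pow, show (36 * ((A : ℝ) * B)) = (3 * (2 * (A : ℝ))) * (3 * (2 * B)) by ring,
        mul_pow (3 * (2 * (A : ℝ))) (3 * (2 * B))]
      have e1 : x ^ 3 ≠ 0 := by positivity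
      have e2 : y ^ 3 ≠ 0 := by positivity
      field_simp
    _ ≤ P ^ 3 * (9 * P) ^ 3 * (C0 + 2 * C1) * (c : ℝ) ^ ε * (2 * T) := by gcongr
    _ = (2 * 9 ^ 3 * (C0 + 2 * C1)) * (c : ℝ) ^ ε * (P ^ 2) ^ 3 * T := by
      rw [mul_pow, ← pow_mul]
      ring

end Pool.Agent.Helper90.AL
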